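import Pool.Agent.W844.DO.Defs

/-!
# Project DO: the part S_RES (from S_ALG)
-/

set_option autoImplicit false
set_option linter.all false

open MeasureTheory Filter Topology Set

namespace Pool.Agent.W174.DO

open Pool.Agent.W844.DO

theorem cv_conv (u v : ℝ → ℝ) :
    cv u v = MeasureTheory.convolution u v (ContinuousLinearMap.mul ℝ ℝ) volume := rfl

theorem cv_int {u v : ℝ → ℝ} (hu : Integrable u) (hv : Integrable v) : Integrable (cv u v) := by
  rw [cv_conv]; exact hu.integrable_convolution _ hv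

theorem cv_ex {u v : ℝ → ℝ} (hu : Integrable u) (hv : Integrable v) :
    ∀ᵐ x, Integrable (fun y => u y * v (x - y)) :=
  hu.ae_convolution_exists (ContinuousLinearMap.mul ℝ ℝ) hv

theorem cv_comm (u v : ℝ → ℝ) : cv u v = cv v u := by
  funext x
  unfold cv
  rw [← integral_sub_left_eq_self (fun y => u y * v (x - y)) volume x]
  congr 1; funext y
  rw [sub_sub_cancel, mul_comm]

theorem cv_congr {u u' v v' : ℝ → ℝ} (h : u =ᵐ[volume] u') (h' : v =ᵐ[volume] v') :
    cv u v = cv u' v' := by
  rw [cv_conv, cv_conv]; exact convolution_congr _ h h'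

theorem cv_add_left {u u' v : ℝ → ℝ} (hu : Integrable u) (hu' : Integrable u')
    (hv : Integrable v) :
    cv (fun x => u x + u' x) v =ᵐ[volume] fun x => cv u v x + cv u' v x := by
  filter_upwards [cv_ex hu hv, cv_ex hu' hv] with x h1 h2
  unfold cv
  rw [← integral_add h1 h2]; congr 1; funext y; ring

theorem cv_sub_left {u u' v : ℝ → ℝ} (hu : Integrable u) (hu' : Integrable u')
    (hv : Integrable v) :
    cv (fun x => u x - u' x) v =ᵐ[volume] fun x => cv u v x - cv u' v x := by
  filter_upwards [cv_ex hu hv, cv_ex hu' hv] with x h1 h2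
  unfold cv
  rw [← integral_sub h1 h2]; congr 1; funext y; ring

theorem cv_assoc {u v w : ℝ → ℝ} (hu : Integrable u) (hv : Integrable v) (hw : Integrable w) :
    cv (cv u v) w =ᵐ[volume] cv u (cv v w) := by
  have h1 := (hu.norm).ae_convolution_exists (ContinuousLinearMap.mul ℝ ℝ)
    (cv_int hv.norm hw.norm)
  filter_upwards [h1] with x hx
  exact convolution_assoc (ContinuousLinearMap.mul ℝ ℝ) (ContinuousLinearMap.mul ℝ ℝ)
    (ContinuousLinearMap.mul ℝ ℝ) (ContinuousLinearMap.mul ℝ ℝ)
    (fun a b c => by simp [mul_assoc]) hu.1 hv.1 hw.1 (hu.ae_convolution_exists _ hv)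
    (hv.norm.ae_convolution_exists _ hw.norm) hx

theorem cv_D {u v : ℝ → ℝ} (hu : Integrable u) (hv : Integrable v)
    (hDu : Integrable (fun x => x * u x)) (hDv : Integrable (fun x => x * v x)) :
    (fun x => x * cv u v x) =ᵐ[volume]
      fun x => cv (fun y => y * u y) v x + cv u (fun y => y * v y) x := by
  filter_upwards [cv_ex hDu hv, cv_ex hu hDv] with x h1 h2
  unfold cv
  rw [← integral_add h1 h2, ← integral_const_mul]
  congr 1; funext y; ring

theorem cv_csl {u v : ℝ → ℝ} (hu : Csl u) (hv : Csl v) : Csl (cv u v) := by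
  intro x hx
  unfold cv
  have : (fun y => u y * v (x - y)) = fun _ => (0 : ℝ) := by
    funext y
    rcases le_or_gt y 0 with h | h
    · rw [hu y h, zero_mul]
    · rw [hv (x - y) (by linarith), mul_zero]
  rw [this]; simp

/-- the primitive -/
noncomputable def II (u : ℝ → ℝ) (x : ℝ) : ℝ := ∫ y in Iic x, u y

theorem II_cv {u v : ℝ → ℝ} (hu : Integrable u) (hv : Integrable v) (x : ℝ) :
    II (cv v u) x = cv v (II u) x := by
  unfold II cv
  have h1 : Integrable (Function.uncurry fun (w z : ℝ) => v z * u (w - z))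
      ((volume.restrict (Iic x)).prod volume) := by
    have h2 := hv.convolution_integrand (ContinuousLinearMap.mul ℝ ℝ) hu
    have h3 : (volume.restrict (Iic x)).prod (volume : Measure ℝ) =
        ((volume : Measure ℝ).prod volume).restrict (Iic x ×ˢ univ) := by
      rw [← Measure.prod_restrict, Measure.restrict_univ]
    rw [h3]
    exact h2.restrict
  rw [integral_integral_swap h1]
  congr 1; funext z
  rw [integral_const_mul]
  congr 1
  simp only
  rw [← integral_indicator measurableSet_Iic, ← integral_indicator measurableSet_Iic,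
    ← integral_sub_right_eq_self ((Iic (x-z)).indicator u) z]
  congr 1; funext w
  by_cases h : w ≤ x
  · rw [indicator_of_mem (by exact h), indicator_of_mem (by simp only [mem_Iic]; linarith)]
  · rw [indicator_of_notMem (by exact h), indicator_of_notMem (by
      simp only [mem_Iic]; intro h'; apply h; linarith)]

theorem II_eq {g : ℝ → ℝ} (hg : Integrable g) (x : ℝ) :
    II g x = II g 0 + ∫ t in (0:ℝ)..x, g t := by
  have := intervalIntegral.integral_Iic_sub_Iic (hg.integrableOn (s := Iic 0))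
    (hg.integrableOn (s := Iic x))
  unfold II; linarith

theorem II_csl {g : ℝ → ℝ} (hg : Csl g) (x : ℝ) (hx : x ≤ 0) : II g x = 0 := by
  unfold II
  apply setIntegral_eq_zero_of_forall_eq_zero
  intro y hy
  exact hg y (le_trans hy hx)

theorem II_cont {g : ℝ → ℝ} (hg : Integrable g) : Continuous (II g) := by
  have : II g = fun x => II g 0 + ∫ t in (0:ℝ)..x, g t := funext (II_eq hg)
  rw [this]
  exact continuous_const.add
    (intervalIntegral.continuous_primitive (fun a b => hg.intervalIntegrable) 0)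

theorem II_deriv {g : ℝ → ℝ} (hg : Integrable g) {x : ℝ} (hc : ContinuousAt g x) :
    HasDerivAt (II g) (g x) x := by
  have h1 := intervalIntegral.integral_hasDerivAt_right (hg.intervalIntegrable (a := 0) (b := x))
    hg.1.stronglyMeasurableAtFilter hc
  have : II g = fun x => II g 0 + ∫ t in (0:ℝ)..x, g t := funext (II_eq hg)
  rw [this]
  exact h1.const_add _

theorem II_congr {u g : ℝ → ℝ} (h : u =ᵐ[volume] g) : II u = II g := by
  funext x
  exact integral_congr_ae (ae_restrict_of_ae h)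

theorem reg1 {m : ℕ} {u g : ℝ → ℝ} (hu : Integrable u) (h : u =ᵐ[volume] g)
    (hgc : ContDiffOn ℝ m g (Ioi 0)) :
    ContDiffOn ℝ (m + 1) (fun x => x⁻¹ * II u x) (Ioi 0) := by
  have hg : Integrable g := hu.congr h
  rw [II_congr h]
  have hd : ∀ x ∈ Ioi (0 : ℝ), HasDerivAt (II g) (g x) x := fun x hx =>
    II_deriv hg (hgc.continuousOn.continuousAt (Ioi_mem_nhds hx))
  have h1 : ContDiffOn ℝ (m + 1) (II g) (Ioi 0) := by
    rw [contDiffOn_succ_iff_deriv_of_isOpen isOpen_Ioi]
    refine ⟨fun x hx => (hd x hx).differentiableAt.differentiableWithinAt, fun h => ?_, ?_⟩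
    · exact absurd h (by simp)
    · exact hgc.congr (fun x hx => (hd x hx).deriv)
  have h2 : ContDiffOn ℝ (m + 1) (fun x : ℝ => x⁻¹) (Ioi 0) :=
    contDiffOn_id.inv (fun x hx => ne_of_gt hx)
  exact h2.mul h1

theorem reg2 {m : ℕ} {u w : ℝ → ℝ} (hu : Integrable u) (hcs : Csl u)
    (hw : ∀ x, 0 < x → x * w x = II u x) (hc : ContDiffOn ℝ (m + 1) w (Ioi 0)) :
    ∃ g : ℝ → ℝ, Csl g ∧ ContDiffOn ℝ m g (Ioi 0) ∧ u =ᵐ[volume] g := by
  classical
  have h1 : ContDiffOn ℝ (m + 1) (fun x => x * w x) (Ioi 0) := contDiffOn_id.mul hc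
  have h2 := (contDiffOn_succ_iff_deriv_of_isOpen isOpen_Ioi).1 h1
  refine ⟨fun x => if 0 < x then deriv (fun x => x * w x) x else 0, ?_, ?_, ?_⟩
  · intro x hx
    simp only
    rw [if_neg (not_lt.2 hx)]
  · exact h2.2.2.congr (fun x hx => if_pos hx)
  · filter_upwards [LocallyIntegrable.ae_hasDerivAt_integral hu.locallyIntegrable] with x hx
    by_cases h0 : 0 < x
    · rw [if_pos h0]
      have h3 := hx 0
      have h4 : HasDerivAt (II u) (u x) x := (h3.const_add (II u 0)).congr_of_eventuallyEq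
        (Eventually.of_forall (fun y => II_eq hu y))
      have h5 : (fun x => x * w x) =ᶠ[𝓝 x] II u := by
        filter_upwards [Ioi_mem_nhds h0] with y hy using hw y hy
      rw [h5.deriv_eq, h4.deriv]
    · rw [if_neg h0]; exact hcs x (not_lt.1 h0)

/-- convolution with `delta - r` -/
noncomputable def QQ (r u : ℝ → ℝ) : ℝ → ℝ := fun x => u x - cv u r x

/-- convolution with `delta + k` -/
noncomputable def PP (k u : ℝ → ℝ) : ℝ → ℝ := fun x => u x + cv u k x

theorem QQ_int {r u : ℝ → ℝ} (hr : Integrable r) (hu : Integrable u) : Integrable (QQ r u) :=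
  hu.sub (cv_int hu hr)

theorem PP_int {r u : ℝ → ℝ} (hr : Integrable r) (hu : Integrable u) : Integrable (PP r u) :=
  hu.add (cv_int hu hr)

theorem QQ_congr {r r' u u' : ℝ → ℝ} (h : r =ᵐ[volume] r') (h' : u =ᵐ[volume] u') :
    QQ r u =ᵐ[volume] QQ r' u' := by
  unfold QQ
  rw [cv_congr h' h]
  filter_upwards [h'] with x hx
  rw [hx]

theorem PP_congr {r r' u u' : ℝ → ℝ} (h : r =ᵐ[volume] r') (h' : u =ᵐ[volume] u') :
    PP r u =ᵐ[volume] PP r' u' := by
  unfold PP
  rw [cv_congr h' h]
  filter_upwards [h'] with x hx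
  rw [hx]

section
variable {k r : ℝ → ℝ} (hk : Integrable k) (hr : Integrable r)
  (hE : ∀ᵐ x, r x + cv k r x = k x)
include hk hr hE

theorem cv_kr : cv k r =ᵐ[volume] fun x => k x - r x := by
  filter_upwards [hE] with x hx
  linarith

theorem cv_ukr {u : ℝ → ℝ} (hu : Integrable u) :
    cv (cv u k) r =ᵐ[volume] fun x => cv u k x - cv u r x := by
  have h1 := cv_assoc hu hk hr
  have h2 : cv u (cv k r) = cv u (fun x => k x - r x) :=
    cv_congr (EventuallyEq.refl _ _) (cv_kr hk hr hE)
  have h3 : cv u (fun x => k x - r x) =ᵐ[volume] fun x => cv u k x - cv u r x := by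
    rw [cv_comm u, cv_comm u, cv_comm u]
    exact cv_sub_left hk hr hu
  rw [h2] at h1
  exact h1.trans h3

theorem cv_urk {u : ℝ → ℝ} (hu : Integrable u) :
    cv (cv u r) k =ᵐ[volume] fun x => cv u k x - cv u r x := by
  have h1 := cv_assoc hu hr hk
  have h2 : cv u (cv r k) = cv u (fun x => k x - r x) := by
    rw [cv_comm r k]
    exact cv_congr (EventuallyEq.refl _ _) (cv_kr hk hr hE)
  have h3 : cv u (fun x => k x - r x) =ᵐ[volume] fun x => cv u k x - cv u r x := by
    rw [cv_comm u, cv_comm u, cv_comm u]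
    exact cv_sub_left hk hr hu
  rw [h2] at h1
  exact h1.trans h3

theorem PP_QQ {u : ℝ → ℝ} (hu : Integrable u) : PP k (QQ r u) =ᵐ[volume] u := by
  have h1 := cv_sub_left hu (cv_int hu hr) hk
  have h2 := cv_urk hk hr hE hu
  filter_upwards [h1, h2] with x h1 h2
  unfold PP QQ
  rw [h1, h2]
  ring

theorem QQ_PP {u : ℝ → ℝ} (hu : Integrable u) : QQ r (PP k u) =ᵐ[volume] u := by
  have h1 := cv_add_left hu (cv_int hu hk) hr
  have h2 := cv_ukr hk hr hE hu
  filter_upwards [h1, h2] with x h1 h2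
  unfold PP QQ
  rw [h1, h2]
  ring

theorem PF (hDk : Integrable (fun x => x * k x)) (hDr : Integrable (fun x => x * r x)) :
    PP k (fun x => x * r x) =ᵐ[volume] QQ r (fun x => x * k x) := by
  have h1 := cv_D hk hr hDk hDr
  filter_upwards [h1, hE] with x h1 h2
  unfold PP QQ
  rw [cv_comm (fun x => x * r x) k]
  have h3 : x * r x + x * cv k r x = x * k x := by rw [← mul_add, h2]
  rw [h1] at h3
  linarith

theorem FF (hDk : Integrable (fun x => x * k x)) (hDr : Integrable (fun x => x * r x)) :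
    (fun x => x * r x) =ᵐ[volume] QQ r (QQ r (fun x => x * k x)) := by
  have h1 := QQ_PP hk hr hE hDr
  have h2 := QQ_congr (EventuallyEq.refl (ae volume) r) (PF hk hr hE hDk hDr)
  exact h1.symm.trans h2

end

theorem QQ_II {r u : ℝ → ℝ} (hr : Integrable r) (hu : Integrable u) :
    QQ r (II u) = II (QQ r u) := by
  funext x
  unfold QQ
  have h1 : II (fun x => u x - cv u r x) x = II u x - II (cv u r) x := by
    unfold II
    exact integral_sub hu.integrableOn (cv_int hu hr).integrableOn
  rw [h1, cv_comm u r, II_cv hu hr, cv_comm r]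

theorem QQ_reg (hA : S_ALG) (m : ℕ) {r u : ℝ → ℝ} (hr : Csl r) (hu : Csl u) (hri : Integrable r)
    (hui : Integrable u) (h1 : ContDiffOn ℝ m r (Ioi 0)) (h2 : ContDiffOn ℝ m u (Ioi 0)) :
    ContDiffOn ℝ m (QQ r u) (Ioi 0) :=
  h2.sub (hA m u r hu hr hui hri h2 h1)

theorem PP_reg (hA : S_ALG) (m : ℕ) {r u : ℝ → ℝ} (hr : Csl r) (hu : Csl u) (hri : Integrable r)
    (hui : Integrable u) (h1 : ContDiffOn ℝ m r (Ioi 0)) (h2 : ContDiffOn ℝ m u (Ioi 0)) :
    ContDiffOn ℝ m (PP r u) (Ioi 0) :=
  h2.add (hA m u r hu hr hui hri h2 h1)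

theorem QQ_csl {r u : ℝ → ℝ} (hr : Csl r) (hu : Csl u) : Csl (QQ r u) := by
  intro x hx
  unfold QQ
  rw [hu x hx, cv_csl hu hr x hx, sub_zero]

theorem PP_csl {r u : ℝ → ℝ} (hr : Csl r) (hu : Csl u) : Csl (PP r u) := by
  intro x hx
  unfold PP
  rw [hu x hx, cv_csl hu hr x hx, add_zero]

theorem res : S_ALG → S_RES := by
  classical
  intro hA k r k1 hk hr hk1 hki hri hk1i hDk hDr hE hI
  have hK : (fun x => x * k x) = II k1 := by
    funext x
    rcases le_or_gt x 0 with hx | hx
    · rw [hk x hx, mul_zero, II_csl hk1 x hx]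
    · rw [hI x hx, II_eq hk1i x, II_csl hk1 0 le_rfl, zero_add]
  obtain ⟨r1, hr1⟩ : ∃ r1, r1 = QQ r (QQ r k1) := ⟨_, rfl⟩
  have hr1i : Integrable r1 := by rw [hr1]; exact QQ_int hri (QQ_int hri hk1i)
  have hr1c : Csl r1 := by rw [hr1]; exact QQ_csl hr (QQ_csl hr hk1)
  have hF : (fun x => x * r x) =ᵐ[volume] II r1 := by
    have h1 := FF hki hri hE hDk hDr
    rw [hK, QQ_II hri hk1i, QQ_II hri (QQ_int hri hk1i), ← hr1] at h1
    exact h1
  have hinv : k1 =ᵐ[volume] PP k (PP k r1) := by
    have h1 : PP k r1 =ᵐ[volume] QQ r k1 := by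
      rw [hr1]; exact PP_QQ hki hri hE (QQ_int hri hk1i)
    have h2 := PP_congr (EventuallyEq.refl (ae volume) k) h1
    exact (h2.trans (PP_QQ hki hri hE hk1i)).symm
  obtain ⟨ρ, hρ⟩ : ∃ ρ : ℝ → ℝ, ρ = fun x => x⁻¹ * II r1 x := ⟨_, rfl⟩
  have hρr : ∀ᵐ x, 0 < x → r x = ρ x := by
    filter_upwards [hF] with x hx h0
    rw [hρ]
    simp only at hx ⊢
    rw [← hx]
    field_simp
  refine ⟨ρ, ?_, hρr, ?_⟩
  · rw [hρ]
    exact (continuousOn_id.inv₀ (fun x hx => ne_of_gt hx)).mul (II_cont hr1i).continuousOn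
  · obtain ⟨rt, hrt⟩ : ∃ rt : ℝ → ℝ, rt = fun x => if 0 < x then ρ x else 0 := ⟨_, rfl⟩
    have hrt1 : r =ᵐ[volume] rt := by
      filter_upwards [hρr] with x hx
      rw [hrt]
      by_cases h : 0 < x
      · simp only [if_pos h]; exact hx h
      · simp only [if_neg h]; exact hr x (not_lt.1 h)
    have hrtc : Csl rt := by
      intro x hx
      rw [hrt]
      simp only [if_neg (not_lt.2 hx)]
    have hrti : Integrable rt := hri.congr hrt1
    have hrt2 : ∀ x ∈ Ioi (0 : ℝ), rt x = ρ x := by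
      intro x hx
      rw [hrt]
      exact if_pos hx
    intro m
    induction m with
    | zero =>
      have h1 : ContDiffOn ℝ ((0 : ℕ) : WithTop ℕ∞) k (Ioi 0) := by
        rw [Nat.cast_zero, contDiffOn_zero]
        have : ContinuousOn (fun x => x⁻¹ * II k1 x) (Ioi 0) :=
          (continuousOn_id.inv₀ (fun x hx => ne_of_gt hx)).mul (II_cont hk1i).continuousOn
        refine this.congr ?_
        intro x hx
        have hx' : 0 < x := hx
        simp only
        rw [← hK]
        field_simp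
      have h2 : ContDiffOn ℝ ((0 : ℕ) : WithTop ℕ∞) ρ (Ioi 0) := by
        rw [Nat.cast_zero, contDiffOn_zero, hρ]
        exact (continuousOn_id.inv₀ (fun x hx => ne_of_gt hx)).mul (II_cont hr1i).continuousOn
      exact ⟨fun _ => h2, fun _ => h1⟩
    | succ m ih =>
      have hle : ((m : ℕ) : WithTop ℕ∞) ≤ ((m + 1 : ℕ) : WithTop ℕ∞) := by
        exact_mod_cast Nat.le_succ m
      have hcast : ((m + 1 : ℕ) : WithTop ℕ∞) = (m : WithTop ℕ∞) + 1 := by push_cast; rfl
      constructor
      · intro h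
        have hm := ih.1 (h.of_le hle)
        have hmt : ContDiffOn ℝ m rt (Ioi 0) := hm.congr hrt2
        rw [hcast] at h
        obtain ⟨g, hg1, hg2, hg3⟩ := reg2 hk1i hk1 (fun x hx => by
          rw [← hK]) h
        have hgi : Integrable g := hk1i.congr hg3
        have e1 : r1 =ᵐ[volume] QQ rt (QQ rt g) := by
          rw [hr1]
          exact QQ_congr hrt1 (QQ_congr hrt1 hg3)
        have e2 : ContDiffOn ℝ m (QQ rt (QQ rt g)) (Ioi 0) :=
          QQ_reg hA m hrtc (QQ_csl hrtc hg1) hrti (QQ_int hrti hgi) hmt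
            (QQ_reg hA m hrtc hg1 hrti hgi hmt hg2)
        rw [hcast, hρ]
        exact reg1 hr1i e1 e2
      · intro h
        have hm := ih.2 (h.of_le hle)
        rw [hcast] at h
        obtain ⟨g, hg1, hg2, hg3⟩ := reg2 hr1i hr1c (w := ρ) (fun x hx => by
          rw [hρ]; field_simp) h
        have hgi : Integrable g := hr1i.congr hg3
        have e1 : k1 =ᵐ[volume] PP k (PP k g) :=
          hinv.trans (PP_congr (EventuallyEq.refl _ _) (PP_congr (EventuallyEq.refl _ _) hg3))
        have e2 : ContDiffOn ℝ m (PP k (PP k g)) (Ioi 0) :=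
          PP_reg hA m hk (PP_csl hk hg1) hki (PP_int hki hgi) hm
            (PP_reg hA m hk hg1 hki hgi hm hg2)
        rw [hcast]
        refine (reg1 hk1i e1 e2).congr ?_
        intro x hx
        have hx' : 0 < x := hx
        rw [← hK]
        field_simp

end Pool.Agent.W174.DO
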